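import Pool.Agent.N245.DS.St

/-!
# Project DS (helper245), leaf STURM (helper492): Sturm's upper bound without boundary conditions
-/

set_option autoImplicit false

namespace Pool.Agent.N492.DS

open Set Filter Topology Pool.Agent.N245.DS

theorem alt_smul {u : ℝ → ℝ} {I : Set ℝ} {n : ℕ} (h : Alt u I n) {c : ℝ} (hc : c ≠ 0) :
    Alt (fun x => c * u x) I n := by
  obtain ⟨t, h1, h2, h3⟩ := h
  refine ⟨t, h1, h2, fun i hi => ?_⟩
  have h4 : 0 < c * c := mul_self_pos.2 hc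
  have h5 : c * u (t i) * (c * u (t (i + 1))) = (c * c) * (u (t i) * u (t (i + 1))) := by ring
  rw [h5]
  exact mul_neg_of_pos_of_neg h4 (h3 i hi)

/-- the iterates -/
noncomputable def FF {n : ℕ} (ν : Fin n → ℝ) (w : Fin n → ℝ → ℝ) (μ : ℝ) (k : ℕ) (x : ℝ) : ℝ :=
  ∑ i, (ν i - μ) ^ k * w i x

/-- the number of bad steps at a point -/
theorem bad_le (hD : S_DESC) {n : ℕ} (ν : Fin n → ℝ) (w : Fin n → ℝ → ℝ) (μ : ℝ)
    (hν : Function.Injective ν) (hμ : ∀ i, ν i < μ) (x : ℝ) (hx : ∃ i, w i x ≠ 0) (N : ℕ) :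
    ∑ k ∈ Finset.range N, (if FF ν w μ k x * FF ν w μ (k + 1) x < 0 then 0 else 1) ≤ 2 * n := by
  classical
  have h1 : ∑ k ∈ Finset.range N, (if FF ν w μ k x * FF ν w μ (k + 1) x < 0 then 0 else 1) =
      ((Finset.range N).filter fun k => ¬ FF ν w μ k x * FF ν w μ (k + 1) x < 0).card := by
    rw [Finset.card_filter]
    refine Finset.sum_congr rfl fun k _ => ?_
    by_cases h : FF ν w μ k x * FF ν w μ (k + 1) x < 0
    · rw [if_pos h, if_neg (not_not.2 h)]
    · rw [if_neg h, if_pos h]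
  rw [h1]
  have h2 : ∀ k, FF ν w μ k x = (-1) ^ k * ∑ i, w i x * (μ - ν i) ^ k := by
    intro k
    unfold FF
    rw [Finset.mul_sum]
    refine Finset.sum_congr rfl fun i _ => ?_
    have h3 : ν i - μ = (-1) * (μ - ν i) := by ring
    rw [h3, mul_pow]
    ring
  refine hD n (fun i => w i x) (fun i => μ - ν i) (fun i j h => hν ?_) (fun i => ?_) hx _ ?_
  · have h' : μ - ν i = μ - ν j := h
    linarith
  · have := hμ i
    show 0 < μ - ν i
    linarith
  · intro k hk
    have h3 := (Finset.mem_filter.1 hk).2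
    rw [h2, h2, not_lt] at h3
    have h4 : ((-1 : ℝ) ^ k * ∑ i, w i x * (μ - ν i) ^ k) *
        ((-1) ^ (k + 1) * ∑ i, w i x * (μ - ν i) ^ (k + 1)) =
        -((∑ i, w i x * (μ - ν i) ^ k) * ∑ i, w i x * (μ - ν i) ^ (k + 1)) := by
      have h5 : (-1 : ℝ) ^ k * (-1) ^ (k + 1) = -1 := by
        rw [pow_succ, ← mul_assoc, ← mul_pow]
        norm_num
      linear_combination ((∑ i, w i x * (μ - ν i) ^ k) *
        ∑ i, w i x * (μ - ν i) ^ (k + 1)) * h5
    rw [h4] at h3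
    linarith

theorem sturm : Pool.Agent.N245.DS.S_ROLLE → Pool.Agent.N245.DS.S_DESC →
    Pool.Agent.N245.DS.S_LIM → Pool.Agent.N245.DS.S_STURM := by
  intro hR hD hL n a b Q q ν w w' hQ hq hν hνq hw hw' M hM
  classical
  obtain ⟨t, ht1, ht2, ht3⟩ := hM
  have hab : a < b := (ht2 0 (Nat.zero_le _)).1.trans (ht2 0 (Nat.zero_le _)).2
  have hsq : 0 ≤ Real.sqrt Q := Real.sqrt_nonneg _
  rcases Nat.eq_zero_or_pos M with hM0 | hM0
  · subst hM0
    have : 0 ≤ (b - a) * Real.sqrt Q := mul_nonneg (by linarith) hsq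
    have : (0 : ℝ) ≤ n := Nat.cast_nonneg n
    push_cast
    linarith
  -- the end points
  have hlt : ∀ i j, i ≤ j → j ≤ M → t i ≤ t j := by
    intro i j hij
    induction j, hij using Nat.le_induction with
    | base => intro _; exact le_rfl
    | succ j hij ih => intro hj; exact (ih (by omega)).trans (ht1 j (by omega)).le
  have hend : t 0 < t M := (ht1 0 hM0).trans_le (hlt 1 M hM0 le_rfl)
  have hFne : ∀ x, (∑ i, w i x) ≠ 0 → ∃ i, w i x ≠ 0 := by
    intro x hx
    by_contra h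
    push Not at h
    exact hx (Finset.sum_eq_zero fun i _ => h i)
  have h0 : ∃ i, w i (t 0) ≠ 0 := by
    refine hFne _ fun h => ?_
    have := ht3 0 hM0
    simp only at this
    rw [h, zero_mul] at this
    exact lt_irrefl _ this
  have hMM : ∃ i, w i (t M) ≠ 0 := by
    refine hFne _ fun h => ?_
    have := ht3 (M - 1) (by omega)
    simp only at this
    rw [show M - 1 + 1 = M by omega, h, mul_zero] at this
    exact lt_irrefl _ this
  obtain ⟨i1, hi1⟩ := h0
  -- the constant `μ`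
  obtain ⟨μ, hμdef⟩ : ∃ μ, μ = ν i1 + 2 * Q + 1 := ⟨_, rfl⟩
  have hμq : ∀ x, q x < μ := by
    intro x
    have := (abs_le.1 (hνq i1 x)).1
    linarith
  have hμν : ∀ i, ν i < μ := by
    intro i
    have h1 := (abs_le.1 (hνq i1 0)).1
    have h2 := (abs_le.1 (hνq i 0)).2
    linarith
  -- derivatives
  have hF1 : ∀ k x, HasDerivAt (FF ν w μ k) (FF ν w' μ k x) x := by
    intro k x
    unfold FF
    exact HasDerivAt.fun_sum fun i _ => (hw i x).const_mul _
  have hF2 : ∀ k x, HasDerivAt (FF ν w' μ k)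
      ((μ - q x) * FF ν w μ k x + FF ν w μ (k + 1) x) x := by
    intro k x
    have h1 : HasDerivAt (FF ν w' μ k) (∑ i, (ν i - μ) ^ k * ((ν i - q x) * w i x)) x := by
      unfold FF
      exact HasDerivAt.fun_sum fun i _ => (hw' i x).const_mul _
    convert h1 using 1
    unfold FF
    rw [Finset.mul_sum, ← Finset.sum_add_distrib]
    refine Finset.sum_congr rfl fun i _ => ?_
    rw [pow_succ]
    ring
  have hFc : ∀ k, Continuous (FF ν w μ k) := fun k =>
    continuous_iff_continuousAt.2 fun x => (hF1 k x).continuousAt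
  -- the steps
  have hstep : ∀ k M₁, Alt (FF ν w μ k) (Icc (t 0) (t M)) M₁ →
      ∃ M₂, Alt (FF ν w μ (k + 1)) (Icc (t 0) (t M)) M₂ ∧
        M₁ ≤ M₂ + (if FF ν w μ k (t 0) * FF ν w μ (k + 1) (t 0) < 0 then 0 else 1) +
          (if FF ν w μ k (t M) * FF ν w μ (k + 1) (t M) < 0 then 0 else 1) := by
    intro k M₁ h
    exact hR (t 0) (t M) (fun x => μ - q x) (FF ν w μ k) (FF ν w' μ k) (FF ν w μ (k + 1))
      (hFc _) (continuous_const.sub hq) (fun x => by have := hμq x; linarith) (hF1 k) (hF2 k) M₁ h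
  have hiter : ∀ N, ∃ M₂, Alt (FF ν w μ N) (Icc (t 0) (t M)) M₂ ∧
      M ≤ M₂ + (∑ k ∈ Finset.range N,
        (if FF ν w μ k (t 0) * FF ν w μ (k + 1) (t 0) < 0 then 0 else 1)) +
        ∑ k ∈ Finset.range N,
        (if FF ν w μ k (t M) * FF ν w μ (k + 1) (t M) < 0 then 0 else 1) := by
    intro N
    induction N with
    | zero =>
      refine ⟨M, ⟨t, ht1, fun i hi => ⟨hlt 0 i (Nat.zero_le _) hi, hlt i M hi le_rfl⟩,
        fun i hi => ?_⟩, by simp⟩
      have h1 : ∀ x, FF ν w μ 0 x = ∑ i, w i x := by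
        intro x
        unfold FF
        simp
      rw [h1, h1]
      exact ht3 i hi
    | succ N ih =>
      obtain ⟨M₁, hA, hle⟩ := ih
      obtain ⟨M₂, hA2, hle2⟩ := hstep N M₁ hA
      refine ⟨M₂, hA2, ?_⟩
      rw [Finset.sum_range_succ, Finset.sum_range_succ]
      omega
  -- the smallest index
  have hJ : (Finset.univ.filter fun i => ∃ x, w i x ≠ 0).Nonempty :=
    ⟨i1, Finset.mem_filter.2 ⟨Finset.mem_univ _, t 0, hi1⟩⟩
  obtain ⟨i0, hi0, hmin⟩ := Finset.exists_min_image _ ν hJ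
  have hi0' := (Finset.mem_filter.1 hi0).2
  obtain ⟨ε, hε, hlim⟩ := hL (t 0) (t M) (ν i0) Q q (w i0) (w' i0) hend hQ hq (hνq i0) (hw i0)
    (hw' i0) hi0'
  have hz : ∀ i, (¬ ∃ x, w i x ≠ 0) → ∀ x, w i x = 0 ∧ w' i x = 0 := by
    intro i hi x
    push Not at hi
    refine ⟨hi x, ?_⟩
    have h1 : w i = fun _ => 0 := funext hi
    have h2 := hw i x
    rw [h1] at h2
    exact h2.unique (hasDerivAt_const x 0)
  -- bounds
  have hwc : ∀ i, Continuous (w i) := fun i =>
    continuous_iff_continuousAt.2 fun x => (hw i x).continuousAt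
  have hwc' : ∀ i, Continuous (w' i) := fun i =>
    continuous_iff_continuousAt.2 fun x => (hw' i x).continuousAt
  have hB : ∀ i, ∃ B : ℝ, 0 ≤ B ∧ ∀ x ∈ Icc (t 0) (t M), |w i x| ≤ B ∧ |w' i x| ≤ B := by
    intro i
    obtain ⟨B1, hB1⟩ := isCompact_Icc.exists_bound_of_continuousOn (s := Icc (t 0) (t M))
      (hwc i).continuousOn
    obtain ⟨B2, hB2⟩ := isCompact_Icc.exists_bound_of_continuousOn (s := Icc (t 0) (t M))
      (hwc' i).continuousOn
    refine ⟨max 0 (max B1 B2), le_max_left _ _, fun x hx => ⟨?_, ?_⟩⟩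
    · exact (hB1 x hx).trans ((le_max_left _ _).trans (le_max_right _ _))
    · exact (hB2 x hx).trans ((le_max_right _ _).trans (le_max_right _ _))
  choose B hB0 hB using hB
  have hd0 : ν i0 - μ ≠ 0 := by
    have := hμν i0
    intro h
    linarith
  set r : Fin n → ℝ := fun i => if (∃ x, w i x ≠ 0) then |(ν i - μ) / (ν i0 - μ)| else 0 with hr
  have hr1 : ∀ i, i ≠ i0 → 0 ≤ r i ∧ r i < 1 := by
    intro i hi
    simp only [hr]
    split_ifs with h
    · refine ⟨abs_nonneg _, ?_⟩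
      have h1 : ν i0 ≤ ν i := hmin i (Finset.mem_filter.2 ⟨Finset.mem_univ _, h⟩)
      have h2 : ν i0 < ν i := lt_of_le_of_ne h1 fun h => hi (hν h).symm
      have h3 := hμν i
      have h4 : (ν i - μ) / (ν i0 - μ) = (μ - ν i) / (μ - ν i0) := by
        rw [← neg_sub μ (ν i), ← neg_sub μ (ν i0), neg_div_neg_eq]
      rw [h4, abs_of_nonneg (div_nonneg (by linarith) (by linarith)),
        div_lt_one (by linarith)]
      linarith
    · exact ⟨le_rfl, one_pos⟩
  have htend : Tendsto (fun N : ℕ => ∑ i ∈ Finset.univ.erase i0, r i ^ N * B i) atTop (𝓝 0) := by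
    have h1 : (0 : ℝ) = ∑ i ∈ Finset.univ.erase i0, 0 * B i := by simp
    rw [h1]
    refine tendsto_finset_sum _ fun i hi => ?_
    have h2 := hr1 i (Finset.ne_of_mem_erase hi)
    exact (tendsto_pow_atTop_nhds_zero_of_lt_one h2.1 h2.2).mul_const _
  obtain ⟨N, hN⟩ := (htend.eventually (gt_mem_nhds hε)).exists
  have hclose : ∀ (v : Fin n → ℝ → ℝ) (x : ℝ), (∀ i, |v i x| ≤ B i) →
      (∀ i, (¬ ∃ x, w i x ≠ 0) → v i x = 0) →
      |((ν i0 - μ) ^ N)⁻¹ * FF ν v μ N x - v i0 x| ≤ ε := by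
    intro v x hv hv0
    have h1 : ((ν i0 - μ) ^ N)⁻¹ * FF ν v μ N x - v i0 x =
        ∑ i ∈ Finset.univ.erase i0, ((ν i - μ) / (ν i0 - μ)) ^ N * v i x := by
      unfold FF
      rw [Finset.mul_sum, ← Finset.add_sum_erase _ _ (Finset.mem_univ i0), ← mul_assoc,
        inv_mul_cancel₀ (pow_ne_zero _ hd0), one_mul, add_sub_cancel_left]
      refine Finset.sum_congr rfl fun i _ => ?_
      rw [div_pow]
      ring
    rw [h1]
    refine (Finset.abs_sum_le_sum_abs _ _).trans (le_trans (Finset.sum_le_sum fun i hi => ?_)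
      hN.le)
    by_cases h : ∃ x, w i x ≠ 0
    · have h2 : r i = |(ν i - μ) / (ν i0 - μ)| := by
        simp only [hr]
        rw [if_pos h]
      rw [h2, abs_mul, abs_pow]
      exact mul_le_mul_of_nonneg_left (hv i) (by positivity)
    · rw [hv0 i h, mul_zero, abs_zero]
      exact mul_nonneg (pow_nonneg (hr1 i (Finset.ne_of_mem_erase hi)).1 _) (hB0 i)
  obtain ⟨M₂, hA, hle⟩ := hiter N
  have hfin := hlim (fun x => ((ν i0 - μ) ^ N)⁻¹ * FF ν w μ N x)
    (fun x => ((ν i0 - μ) ^ N)⁻¹ * FF ν w' μ N x) (fun x => (hF1 N x).const_mul _)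
    (fun x hx => hclose w x (fun i => (hB i x hx).1) fun i hi => (hz i hi x).1)
    (fun x hx => hclose w' x (fun i => (hB i x hx).2) fun i hi => (hz i hi x).2)
    M₂ (alt_smul hA (inv_ne_zero (pow_ne_zero _ hd0)))
  have e1 := bad_le hD ν w μ hν hμν (t 0) ⟨i1, hi1⟩ N
  have e2 := bad_le hD ν w μ hν hμν (t M) hMM N
  have e3 : M ≤ M₂ + 4 * n := by omega
  have e4 : (M : ℝ) ≤ M₂ + 4 * n := by exact_mod_cast e3
  have e5 : (t M - t 0) * Real.sqrt Q ≤ (b - a) * Real.sqrt Q := by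
    refine mul_le_mul_of_nonneg_right ?_ hsq
    have g1 := (ht2 0 (Nat.zero_le _)).1
    have g2 := (ht2 M le_rfl).2
    linarith
  linarith

end Pool.Agent.N492.DS
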